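import Mathlib
import Pool.Agent.H.MP_5d01ce_co.A

set_option autoImplicit false

namespace Pool.Agent.H.MP_6e559c_co

open Set Submodule Module Matroid Pool.Agent.H.MP_5d01ce_co

abbrev V := (ℕ → ℝ) × (ℝ × ℝ)

def q (n e : ℕ) : ℝ × ℝ :=
  if e % 3 = 0 then 0 else if e % 3 = 1 then (1, ((e / 3 : ℕ) : ℝ))
  else (1, (((e / 3 + 1) % n : ℕ) : ℝ))

def x (n e : ℕ) : V := (Pi.single (e / 3) 1, q n e)

def T (i : ℕ) : Finset ℕ := {3 * i, 3 * i + 1, 3 * i + 2}

theorem mem_T {e i : ℕ} : e ∈ T i ↔ e / 3 = i := by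
  simp only [T, Finset.mem_insert, Finset.mem_singleton]; omega

theorem card_T (i : ℕ) : (T i).card = 3 := by
  rw [T, Finset.card_insert_of_notMem (by simp), Finset.card_pair (by simp)]

theorem q0 (n i : ℕ) : q n (3 * i) = 0 := by simp [q]
theorem q1 (n i : ℕ) : q n (3 * i + 1) = (1, (i : ℝ)) := by
  rw [q, if_neg (by omega), if_pos (by omega), show (3 * i + 1) / 3 = i by omega]
theorem q2 (n i : ℕ) : q n (3 * i + 2) = (1, (((i + 1) % n : ℕ) : ℝ)) := by
  rw [q, if_neg (by omega), if_neg (by omega), show (3 * i + 2) / 3 = i by omega]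

theorem x0 (n i : ℕ) : x n (3 * i) = (Pi.single i 1, 0) := by
  rw [x, q0, show (3 * i) / 3 = i by omega]
theorem x1 (n i : ℕ) : x n (3 * i + 1) = (Pi.single i 1, (1, (i : ℝ))) := by
  rw [x, q1, show (3 * i + 1) / 3 = i by omega]
theorem x2 (n i : ℕ) : x n (3 * i + 2) = (Pi.single i 1, (1, (((i + 1) % n : ℕ) : ℝ))) := by
  rw [x, q2, show (3 * i + 2) / 3 = i by omega]

theorem succ_ne {n i : ℕ} (hn : 2 ≤ n) (hi : i < n) : (((i + 1) % n : ℕ) : ℝ) - i ≠ 0 := by
  rw [sub_ne_zero, Ne, Nat.cast_inj]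
  rcases Nat.lt_or_ge (i + 1) n with h | h
  · rw [Nat.mod_eq_of_lt h]; omega
  · rw [show i + 1 = n by omega, Nat.mod_self]; omega

theorem sum_T {U : Type} [AddCommMonoid U] (i : ℕ) (g : ℕ → U) :
    ∑ e ∈ T i, g e = g (3 * i) + g (3 * i + 1) + g (3 * i + 2) := by
  rw [T, Finset.sum_insert (by simp), Finset.sum_pair (by simp), add_assoc]

theorem li_T {n i : ℕ} (hn : 2 ≤ n) (hi : i < n) : LinearIndepOn ℝ (x n) (T i) := by
  rw [linearIndepOn_finset_iff]
  intro c h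
  rw [sum_T, x0, x1, x2] at h
  have h1 := congrFun (congrArg Prod.fst h) i
  have h2 := congrArg (fun y : V => y.2.1) h
  have h3 := congrArg (fun y : V => y.2.2) h
  simp at h1 h2 h3
  have h4 : c (3 * i + 2) = 0 :=
    (mul_eq_zero.1 (by linear_combination h3 - i * h2)).resolve_right (succ_ne hn hi)
  intro e he
  simp only [T, Finset.mem_insert, Finset.mem_singleton] at he
  rcases he with rfl | rfl | rfl <;> linarith

theorem comb {n i : ℕ} (hn : 2 ≤ n) (hi : i < n) (k : ℝ × ℝ) : ∃ a b : ℝ,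
    ((0 : ℕ → ℝ), k) = (-(a + b)) • x n (3 * i) + a • x n (3 * i + 1) + b • x n (3 * i + 2) ∧
      (a = 0 → b = 0 → k = 0) := by
  have := succ_ne hn hi
  refine ⟨k.1 - (k.2 - i * k.1) / ((((i + 1) % n : ℕ) : ℝ) - i),
    (k.2 - i * k.1) / ((((i + 1) % n : ℕ) : ℝ) - i), ?_, fun h1 h2 => ?_⟩
  · rw [x0, x1, x2]
    refine Prod.ext ?_ (Prod.ext ?_ ?_)
    · simp only [Prod.fst_add, Prod.smul_fst]; module
    · simp
    · simp only [Prod.snd_add, Prod.smul_snd, smul_eq_mul, Prod.snd_zero]; field_simp; ring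
  · rw [h2, sub_zero] at h1
    rw [div_eq_zero_iff, h1] at h2
    exact Prod.ext h1 (by simpa using h2.resolve_right this)

def φ (s : ℕ) : V →ₗ[ℝ] ℝ := (LinearMap.proj s).comp (LinearMap.fst ℝ _ _)

theorem φx (s n e : ℕ) : φ s (x n e) = if e / 3 = s then 1 else 0 := by
  simp [φ, x, Pi.single_apply, eq_comm]

theorem φ_span {s n : ℕ} {X : Set ℕ} (h : ∀ y ∈ X, y / 3 ≠ s) {z : V} (hz : z ∈ span ℝ (x n '' X)) :
    φ s z = 0 := by
  have : span ℝ (x n '' X) ≤ LinearMap.ker (φ s) := by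
    rw [span_le]
    rintro _ ⟨y, hy, rfl⟩
    simp [φx, h y hy]
  exact this hz

theorem lemA {m : ℕ} {C X : Set ℕ} {g : ℕ} (hC : ∀ c ∈ C, c / 3 ≠ g / 3)
    (hX : ∀ y ∈ X, y / 3 ≠ g / 3) :
    (span ℝ (x m '' C)).mkQ (x m g) ∉ span ℝ (((span ℝ (x m '' C)).mkQ ∘ x m) '' X) := by
  rw [image_comp, ← map_span, ← mem_comap, comap_map_mkQ, ← span_union, ← image_union]
  intro h
  have := φ_span (s := g / 3) (fun y hy => hy.elim (hC y) (hX y)) h
  simp [φx] at this

theorem lemB {m : ℕ} {C : Set ℕ} {S : Finset ℕ} (f : ℕ → ℕ) (hS : S.card = 3)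
    (h : ∀ e ∈ S, ∃ c ∈ C, c / 3 = f e / 3) :
    ¬ LinearIndepOn ℝ (((span ℝ (x m '' C)).mkQ ∘ x m) ∘ f) S := by
  intro hli
  have h1 := li_rk S.finite_toSet hli
  have h2 : span ℝ ((((span ℝ (x m '' C)).mkQ ∘ x m) ∘ f) '' S) ≤
      LinearMap.range ((span ℝ (x m '' C)).mkQ.comp (LinearMap.inr ℝ _ _)) := by
    rw [span_le]
    rintro _ ⟨e, he, rfl⟩
    obtain ⟨c, hc, hce⟩ := h e he
    refine ⟨q m (f e) - q m c, ?_⟩
    simp only [LinearMap.comp_apply, Function.comp_apply, mkQ_apply]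
    rw [Submodule.Quotient.eq]
    have : LinearMap.inr ℝ (ℕ → ℝ) (ℝ × ℝ) (q m (f e) - q m c) - x m (f e) = -x m c := by
      simp [x, hce]
    rw [this]
    exact neg_mem (subset_span ⟨c, hc, rfl⟩)
  have h3 := (finrank_mono h2).trans (LinearMap.finrank_range_le _)
  rw [h1, ncard_coe_finset, hS] at h3
  simp at h3

theorem partner {n e e' : ℕ} (hn : 2 ≤ n) (he : e < 3 * n) (h : e' / 3 = e / 3) (hne : e ≠ e') :
    ∃ g g', g < 3 * n ∧ g' / 3 = g / 3 ∧ g / 3 ≠ e / 3 ∧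
      x n e ∈ span ℝ (x n '' {e', g, g'}) := by
  have key : ∀ g g' : ℕ, ∀ b : ℝ, x n e = x n e' + b • (x n g - x n g') →
      x n e ∈ span ℝ (x n '' {e', g, g'}) := by
    intro g g' b hb
    rw [hb]
    exact add_mem (subset_span ⟨_, by simp, rfl⟩) (smul_mem _ _
      (sub_mem (subset_span ⟨_, by simp, rfl⟩) (subset_span ⟨_, by simp, rfl⟩)))
  obtain ⟨i, hi⟩ : ∃ i, e / 3 = i := ⟨_, rfl⟩
  have hin : i < n := by omega
  obtain ⟨j, hj, hjn, hji⟩ : ∃ j, (i + 1) % n = j ∧ j < n ∧ j ≠ i :=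
    ⟨_, rfl, Nat.mod_lt _ (by omega), fun q => succ_ne hn hin (by rw [q, sub_self])⟩
  obtain ⟨k, hk, hkn, hki⟩ : ∃ k, (k + 1) % n = i ∧ k < n ∧ k ≠ i := by
    rcases Nat.eq_zero_or_pos i with rfl | hp
    · exact ⟨n - 1, by rw [show n - 1 + 1 = n by omega, Nat.mod_self], by omega, by omega⟩
    · exact ⟨i - 1, by rw [show i - 1 + 1 = i by omega, Nat.mod_eq_of_lt hin], by omega, by omega⟩
  have hs := succ_ne hn hjn
  have a1 : e ∈ T i := mem_T.2 hi
  have a2 : e' ∈ T i := mem_T.2 (h.trans hi)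
  simp only [T, Finset.mem_insert, Finset.mem_singleton] at a1 a2
  rcases a1 with rfl | rfl | rfl <;> rcases a2 with rfl | rfl | rfl <;> try exact absurd rfl hne
  · exact ⟨3 * k + 2, 3 * k, by omega, by omega, by omega, key _ _ (-1) (by
      rw [x0, x1, x2, x0, hk]; simp; rfl)⟩
  · exact ⟨3 * j + 1, 3 * j, by omega, by omega, by omega, key _ _ (-1) (by
      rw [x0, x1, x2, x0, hj]; simp; rfl)⟩
  · exact ⟨3 * k + 2, 3 * k, by omega, by omega, by omega, key _ _ 1 (by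
      rw [x0, x1, x2, x0, hk]; simp)⟩
  · exact ⟨3 * j + 2, 3 * j + 1, by omega, by omega, by omega,
      key _ _ ((i - j : ℝ) / ((((j + 1) % n : ℕ) : ℝ) - j)) (by
      rw [x1, x1, x2, x2, hj]; simp; field_simp; ring)⟩
  · exact ⟨3 * j + 1, 3 * j, by omega, by omega, by omega, key _ _ 1 (by
      rw [x0, x1, x2, x0, hj]; simp)⟩
  · exact ⟨3 * j + 2, 3 * j + 1, by omega, by omega, by omega,
      key _ _ ((j - i : ℝ) / ((((j + 1) % n : ℕ) : ℝ) - j)) (by
      rw [x1, x1, x2, x2, hj]; simp; field_simp; ring)⟩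

theorem adj {m s s' h h' : ℕ} (hs : s < m) (hs' : s' < m) (h1 : h / 3 = s') (h2 : h' / 3 = s')
    (hne : s' ≠ s) (b : ℝ) (hb : q m (3 * s + 2) - q m (3 * s) = b • (q m h - q m h')) :
    s' = (s + 1) % m := by
  have a1 : h ∈ T s' := mem_T.2 h1
  have a2 : h' ∈ T s' := mem_T.2 h2
  have key : (s + 1) % m = (s' + 1) % m → False := by
    intro r
    rcases Nat.lt_or_ge (s + 1) m with p | p <;> rcases Nat.lt_or_ge (s' + 1) m with p' | p'
    · rw [Nat.mod_eq_of_lt p, Nat.mod_eq_of_lt p'] at r; omega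
    · rw [Nat.mod_eq_of_lt p, show s' + 1 = m by omega, Nat.mod_self] at r; omega
    · rw [Nat.mod_eq_of_lt p', show s + 1 = m by omega, Nat.mod_self] at r; omega
    · omega
  simp only [T, Finset.mem_insert, Finset.mem_singleton] at a1 a2
  rw [q2, q0] at hb
  have c1 := congrArg Prod.fst hb
  have c2 := congrArg Prod.snd hb
  rcases a1 with rfl | rfl | rfl <;> rcases a2 with rfl | rfl | rfl <;>
    simp only [q0, q1, q2, Prod.fst_sub, Prod.snd_sub, Prod.smul_fst, Prod.smul_snd, smul_eq_mul,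
      Prod.fst_zero, Prod.snd_zero] at c1 c2
  · norm_num at c1
  · exact_mod_cast (by linear_combination -c2 + s' * c1 : (s' : ℝ) = (((s + 1) % m : ℕ) : ℝ))
  · exact (key (by exact_mod_cast (by linear_combination c2 - (((s' + 1) % m : ℕ) : ℝ) * c1 :
      (((s + 1) % m : ℕ) : ℝ) = (((s' + 1) % m : ℕ) : ℝ)))).elim
  · exact_mod_cast (by linear_combination -c2 + s' * c1 : (s' : ℝ) = (((s + 1) % m : ℕ) : ℝ))
  · norm_num at c1
  · norm_num at c1
  · exact (key (by exact_mod_cast (by linear_combination c2 - (((s' + 1) % m : ℕ) : ℝ) * c1 :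
      (((s + 1) % m : ℕ) : ℝ) = (((s' + 1) % m : ℕ) : ℝ)))).elim
  · norm_num at c1
  · norm_num at c1

theorem anti {n m : ℕ} (hn : 4 ≤ n) {C : Set ℕ} {f : ℕ → ℕ} (hf : InjOn f (Iio (3 * n)))
    (hm : ∀ e < 3 * n, f e < 3 * m) {N : Matroid ℕ} (hE : N.E = Iio (3 * n))
    (r1 : Rp ℝ N (x n)) (r2 : Rp ℝ N (((span ℝ (x m '' C)).mkQ ∘ x m) ∘ f)) : n = m := by
  classical
  set Q := span ℝ (x m '' C) with hQ
  have H : ∀ X ⊆ Iio (3 * n), ∀ e < 3 * n, x n e ∈ span ℝ (x n '' X) →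
      Q.mkQ (x m (f e)) ∈ span ℝ ((Q.mkQ ∘ x m) '' (f '' X)) := by
    intro X hX e he h
    rw [← image_comp]
    exact (r2.cl (hE ▸ hX) (hE ▸ he)).1 ((r1.cl (hE ▸ hX) (hE ▸ he)).2 h)
  have hT : ∀ i < n, (T i : Set ℕ) ⊆ Iio (3 * n) := fun i hi e he => by
    have := mem_T.1 he; simp only [mem_Iio]; omega
  have liT : ∀ i < n, LinearIndepOn ℝ ((Q.mkQ ∘ x m) ∘ f) (T i) := fun i hi =>
    (r2 _ (hE ▸ hT i hi)).1 ((r1 _ (hE ▸ hT i hi)).2 (li_T (by omega) hi))
  have S1 : ∀ e < 3 * n, (∀ c ∈ C, c / 3 ≠ f e / 3) → ∀ e', e' / 3 = e / 3 →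
      f e' / 3 = f e / 3 := by
    intro e he hu e' he'
    by_contra hne
    refine lemA (X := f '' {y | y < 3 * n ∧ f y / 3 ≠ f e / 3}) hu
      (by rintro _ ⟨y, hy, rfl⟩; exact hy.2) (H _ (fun y hy => hy.1) e he ?_)
    let Y := (Finset.range (3 * n)).filter fun y : ℕ => f y / 3 = f e / 3
    have hY : Y.card ≤ 3 := by
      rw [← card_T (f e / 3)]
      exact Finset.card_le_card_of_injOn f (fun y hy => mem_T.2 (Finset.mem_filter.1 hy).2)
        (hf.mono fun y hy => Finset.mem_range.1 (Finset.mem_filter.1 hy).1)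
    obtain ⟨k, hk, hk'⟩ := Finset.exists_mem_notMem_of_card_lt_card
      (s := Y.image fun y => y / 3) (t := Finset.range n)
      (by rw [Finset.card_range]; exact (Finset.card_image_le.trans hY).trans_lt (by omega))
    rw [Finset.mem_range] at hk
    have hin : ∀ y, y / 3 = k → x n y ∈
        span ℝ (x n '' {y | y < 3 * n ∧ f y / 3 ≠ f e / 3}) := fun y hy =>
      subset_span ⟨y, ⟨by omega, fun r => hk' (Finset.mem_image.2
        ⟨y, Finset.mem_filter.2 ⟨Finset.mem_range.2 (by omega), r⟩, hy⟩)⟩, rfl⟩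
    obtain ⟨a, b, hab, -⟩ := comb (n := n) (by omega) hk (q n e - q n e')
    have : x n e = x n e' + ((0 : ℕ → ℝ), q n e - q n e') := by simp [x, he']
    rw [this, hab]
    exact add_mem (subset_span ⟨e', ⟨by omega, hne⟩, rfl⟩) (add_mem (add_mem
      (smul_mem _ _ (hin _ (by omega))) (smul_mem _ _ (hin _ (by omega))))
      (smul_mem _ _ (hin _ (by omega))))
  have S2 : ∀ e < 3 * n, ∀ c ∈ C, c / 3 ≠ f e / 3 := by
    intro e he
    by_contra hu
    refine lemB (C := C) (m := m) f (card_T (e / 3)) (fun e' he' => ?_) (liT _ (by omega))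
    by_contra hu'
    push Not at hu'
    have h1 := mem_T.1 he'
    rw [S1 e' (by omega) hu' e h1.symm] at hu
    exact hu hu'
  have S3 : ∀ e < 3 * n, (T (e / 3)).image f = T (f e / 3) := by
    intro e he
    refine Finset.eq_of_subset_of_card_le (fun y hy => ?_) ?_
    · obtain ⟨e', h1, rfl⟩ := Finset.mem_image.1 hy
      exact mem_T.2 (S1 e he (S2 e he) e' (mem_T.1 h1))
    · rw [Finset.card_image_of_injOn (hf.mono (hT _ (by omega))), card_T, card_T]
  have m2 : 2 ≤ m := by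
    have : (Finset.range (3 * n)).card ≤ (Finset.range (3 * m)).card :=
      Finset.card_le_card_of_injOn f (fun y hy => by simpa using hm y (by simpa using hy))
        (by simpa using hf)
    simp at this; omega
  have S4 : ∀ k : ℝ × ℝ, ((0 : ℕ → ℝ), k) ∈ Q → k = 0 := by
    intro k hk
    have h0 : 0 < 3 * n := by omega
    have h1 := (liT (0 / 3) (by omega)).image_of_comp
    rw [← Finset.coe_image, S3 0 h0, linearIndepOn_finset_iff] at h1
    obtain ⟨a, b, hab, h2⟩ := comb (n := m) m2 (i := f 0 / 3) (by have := hm 0 h0; omega) k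
    have h3 := h1 (fun y => if y % 3 = 0 then -(a + b) else if y % 3 = 1 then a else b) (by
      rw [sum_T, if_pos (by omega), if_neg (by omega), if_pos (by omega), if_neg (by omega),
        if_neg (by omega)]
      simp only [Function.comp_apply, ← map_smul, ← map_add, ← hab]
      exact (Submodule.Quotient.mk_eq_zero _).2 hk)
    have h4 := h3 (3 * (f 0 / 3) + 1) (mem_T.2 (by omega))
    have h5 := h3 (3 * (f 0 / 3) + 2) (mem_T.2 (by omega))
    beta_reduce at h4 h5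
    rw [if_neg (by omega), if_pos (by omega)] at h4
    rw [if_neg (by omega), if_neg (by omega)] at h5
    exact h2 h4 h5
  have S5 : ∀ s, (∃ e < 3 * n, f e / 3 = s) → ∃ e < 3 * n, f e / 3 = (s + 1) % m := by
    rintro s ⟨e0, he0, hs⟩
    have h3 := S3 e0 he0
    rw [hs] at h3
    obtain ⟨e, h1, he⟩ := Finset.mem_image.1 (h3 ▸ mem_T.2 (by omega) : 3 * s + 2 ∈ _)
    obtain ⟨e', h2, he'⟩ := Finset.mem_image.1 (h3 ▸ mem_T.2 (by omega) : 3 * s ∈ _)
    rw [mem_T] at h1 h2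
    obtain ⟨g, g', p1, p2, p3, p4⟩ := partner (n := n) (e := e) (e' := e') (by omega) (by omega)
      (by omega) (by rintro rfl; omega)
    refine ⟨g, p1, ?_⟩
    have p5 := H {e', g, g'} (by
      rintro y (rfl | rfl | rfl) <;> simp only [mem_Iio] <;> omega) e (by omega) p4
    have p6 := S1 g p1 (S2 g p1) g' p2
    have p7 : f g / 3 ≠ s := by
      intro r
      obtain ⟨y, y1, y2⟩ := Finset.mem_image.1 (h3 ▸ mem_T.2 r : f g ∈ _)
      rw [mem_T] at y1
      have := hf (show y ∈ Iio (3 * n) by simp only [mem_Iio]; omega) p1 y2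
      omega
    rw [image_insert_eq, image_pair, image_insert_eq, image_pair, mem_span_triple] at p5
    obtain ⟨a, b, c, p5⟩ := p5
    simp only [Function.comp_apply, he, he'] at p5
    rw [← map_smul, ← map_smul, ← map_smul, ← map_add, ← map_add, mkQ_apply, mkQ_apply,
      Submodule.Quotient.eq] at p5
    have u1 := φ_span (s := s) (fun y hy => hs ▸ S2 e0 he0 y hy) p5
    have u2 := φ_span (s := f g / 3) (S2 g p1) p5
    simp only [map_sub, map_add, map_smul, φx, smul_eq_mul] at u1 u2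
    rw [if_pos (by omega), if_neg p7, if_neg (by omega), if_pos (by omega)] at u1
    rw [if_neg (by omega), if_pos trivial, if_pos p6, if_neg (by omega)] at u2
    have ha : a = 1 := by linarith
    have hc : c = -b := by linarith
    subst ha hc
    have u3 := S4 (q m (3 * s) + b • (q m (f g) - q m (f g')) - q m (3 * s + 2)) (by
      convert p5 using 1
      simp only [x, p6, show (3 * s + 2) / 3 = s by omega, show (3 * s) / 3 = s by omega]
      refine Prod.ext ?_ ?_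
      · simp
      · simp only [Prod.snd_sub, Prod.snd_add, Prod.smul_snd]; module)
    exact adj (by have := hm e0 he0; omega) (by have := hm g p1; omega) rfl p6 p7 b
      (by linear_combination (norm := module) -u3)
  have S6 : ∀ j, ∃ e < 3 * n, f e / 3 = (f 0 / 3 + j) % m := by
    intro j
    induction j with
    | zero => exact ⟨0, by omega, by
        rw [add_zero, Nat.mod_eq_of_lt (by have := hm 0 (by omega); omega)]⟩
    | succ j ih => rw [← add_assoc, ← Nat.mod_add_mod]; exact S5 _ ih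
  have c1 : (Finset.range (3 * n)).card = (Finset.range (3 * m)).card := by
    refine Finset.card_nbij f (fun y hy => by simpa using hm y (by simpa using hy))
      (by simpa using hf) fun y hy => ?_
    have hy' : y < 3 * m := by simpa using hy
    have h0 := hm 0 (by omega)
    obtain ⟨e, he, h⟩ := S6 (y / 3 + m - f 0 / 3)
    rw [show f 0 / 3 + (y / 3 + m - f 0 / 3) = y / 3 + m by omega, Nat.add_mod_right,
      Nat.mod_eq_of_lt (by omega)] at h
    obtain ⟨e', h1, h2⟩ := Finset.mem_image.1 (S3 e he ▸ mem_T.2 h.symm : y ∈ _)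
    exact ⟨e', by have := mem_T.1 h1; simp; omega, h2⟩
  simp at c1
  omega

theorem no36 {m : ℕ} {M N : Matroid ℕ} (r : Rp ℝ M (x m)) (hN : N ≤m M) (h6 : N.E.encard = 6)
    (hI : ∀ I, N.Indep I ↔ I ⊆ N.E ∧ I.encard ≤ 3) : False := by
  classical
  obtain ⟨C, D, hC, -, -, rfl⟩ := hN.exists_eq_contract_delete_disjoint
  have r1 := r.minor hC D _ (ker_mkQ _)
  set N := M ／ C ＼ D
  obtain ⟨E, hE⟩ : ∃ E : Finset ℕ, N.E = E := ⟨_, (finite_of_encard_eq_coe h6).coe_toFinset.symm⟩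
  have hc : E.card = 6 := by
    rw [hE, encard_coe_eq_coe_finsetCard] at h6; exact_mod_cast h6
  have li : ∀ S ⊆ E, S.card = 3 → N.Indep S := fun S hS h =>
    (hI _).2 ⟨hE ▸ hS, by rw [encard_coe_eq_coe_finsetCard, h]; rfl⟩
  by_cases hu : ∀ e ∈ E, ∃ c ∈ C, c / 3 = e / 3
  · obtain ⟨S, h1, h2⟩ := Finset.exists_subset_card_eq (s := E) (n := 3) (by omega)
    exact lemB id h2 (fun e he => hu e (h1 he)) ((r1 _ (hE ▸ h1)).1 (li S h1 h2))
  push Not at hu
  obtain ⟨e, he, hu⟩ := hu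
  obtain ⟨S, h1, h2⟩ := Finset.exists_subset_card_eq (s := E \ T (e / 3)) (n := 3) (by
    have := Finset.le_card_sdiff (T (e / 3)) E
    rw [card_T] at this; omega)
  have h3 : S ⊆ E := h1.trans Finset.sdiff_subset
  have h4 : ∀ y ∈ (S : Set ℕ), y / 3 ≠ e / 3 := fun y hy r =>
    (Finset.mem_sdiff.1 (h1 hy)).2 (mem_T.2 r)
  have h5 : e ∉ N.closure S := fun r =>
    lemA hu h4 ((r1.cl (hE ▸ h3) (hE ▸ he)).1 r)
  have h6 := (li S h3 h2).insert_indep_iff.2 (Or.inl ⟨hE ▸ he, h5⟩)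
  have h7 := ((hI _).1 h6).2
  rw [encard_insert_of_notMem (fun r => h4 e r rfl), encard_coe_eq_coe_finsetCard, h2] at h7
  norm_num at h7

theorem Rp.fin {α U : Type} [AddCommGroup U] [Module ℝ U] {M : Matroid α} {v : α → U}
    (h : Rp ℝ M v) (hE : M.E.Finite) : ∃ (k : ℕ) (w : α → Fin k → ℝ), Rp ℝ M w := by
  have : FiniteDimensional ℝ (span ℝ (v '' M.E)) := .span_of_finite ℝ (hE.image v)
  obtain ⟨g, hg⟩ := LinearMap.exists_extend (finBasis ℝ (span ℝ (v '' M.E))).equivFun.toLinearMap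
  refine ⟨_, g ∘ v, fun I hI => (h I hI).trans (g.linearIndepOn_iff_of_injOn ?_).symm⟩
  intro a ha b hb hab
  have h1 := span_mono (R := ℝ) (image_mono (f := v) hI)
  have h2 := LinearMap.congr_fun hg ⟨a, h1 ha⟩
  have h3 := LinearMap.congr_fun hg ⟨b, h1 hb⟩
  simp only [LinearMap.comp_apply, subtype_apply, LinearEquiv.coe_coe] at h2 h3
  exact congrArg Subtype.val
    ((finBasis ℝ (span ℝ (v '' M.E))).equivFun.injective (h2.symm.trans (hab.trans h3)))

end Pool.Agent.H.MP_6e559c_co
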